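import Pool.Agent.Helper69.UX.StC

/-!
Project UX (MP_e12aa9_pr), module PR1 (helper32): the algebra of the profile.
-/

set_option autoImplicit false

namespace Pool.Agent.Helper32.UX

open Finset Filter Pool.Agent.Helper82.CN Pool.Agent.Helper11.PV Pool.Agent.Helper69.VX
  Pool.Agent.Helper69.UX

theorem log_q (p : ℝ) : Real.log (1 - p) = -bb p := by
  unfold bb
  rw [one_div, Real.log_inv, neg_neg]

theorem om_eq (p : ℝ) (hp1 : p < 1) (u : ℕ) :
    om p u = Real.exp (-(bb p * ((u : ℝ) * (u - 1) / 2))) / (u.factorial : ℝ) := by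
  unfold om
  have hq : (0 : ℝ) < 1 - p := by linarith
  rw [← Nat.cast_choose_two ℝ u, ← Real.exp_log (pow_pos hq (u.choose 2)), Real.log_pow, log_q]
  congr 2
  ring

theorem om_pos (p : ℝ) (hp1 : p < 1) (u : ℕ) : 0 < om p u := by
  rw [om_eq p hp1]
  exact div_pos (Real.exp_pos _) (by exact_mod_cast u.factorial_pos)

theorem log_om (p : ℝ) (hp1 : p < 1) (n u : ℕ) :
    Real.log (om p u) = hv p n u - u * Real.log n := by
  have h1 : ((u.factorial : ℕ) : ℝ) ≠ 0 := by exact_mod_cast u.factorial_ne_zero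
  rw [om_eq p hp1, Real.log_div (Real.exp_pos _).ne' h1, Real.log_exp]
  unfold hv
  rw [Nat.cast_choose_two ℝ u]
  ring

theorem ai_nn (L ρ : ℝ) (hρ : 0 < ρ) (T i : ℕ) : 0 ≤ ai L ρ T i := by
  unfold ai
  positivity

theorem As_pos (L ρ : ℝ) (hρ : 0 < ρ) (T : ℕ) (hT : 1 ≤ T) : 0 < As L ρ T := by
  have h0 : ai L ρ T 0 = 1 := by
    unfold ai
    simp
  have h1 : ai L ρ T 0 ≤ As L ρ T :=
    single_le_sum (f := fun i => ai L ρ T i) (fun i _ => ai_nn L ρ hρ T i)
      (mem_range.2 (by omega))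
  rw [h0] at h1
  linarith

theorem Bs_nn (L ρ : ℝ) (hρ : 0 < ρ) (T : ℕ) : 0 ≤ Bs L ρ T :=
  sum_nonneg fun i _ => mul_nonneg (Nat.cast_nonneg i) (ai_nn L ρ hρ T i)

theorem Bs_le (L ρ : ℝ) (hρ : 0 < ρ) (T : ℕ) : Bs L ρ T ≤ (T - 1) * As L ρ T := by
  unfold Bs As
  rw [mul_sum]
  refine sum_le_sum fun i hi => mul_le_mul_of_nonneg_right ?_ (ai_nn L ρ hρ T i)
  have : i + 1 ≤ T := mem_range.1 hi
  have h2 : ((i : ℝ) + 1) ≤ T := by exact_mod_cast this
  linarith

/-- summation over `u = T - i` -/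
theorem sum_top (T : ℕ) (f : ℕ → ℝ) (h0 : f 0 = 0) :
    ∑ u ∈ range (T + 1), f u = ∑ i ∈ range T, f (T - i) := by
  rw [sum_range_succ' f T, h0, add_zero, ← sum_range_reflect]
  refine sum_congr rfl fun i hi => ?_
  have : i < T := mem_range.1 hi
  congr 1
  omega

theorem kap (p ρ : ℝ) (T i : ℕ) (hp1 : p < 1) (hρ : 0 < ρ) (hT : 1 ≤ T) (hi : i < T)
    (X mu lam : ℝ) (hX : 0 < X) (hmu : mu = Real.log T + (T - 1) * bb p - Real.log ρ)
    (hlam : lam = Real.log X - mu * T - Real.log (om p T)) :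
    Real.exp (lam + mu * ((T - i : ℕ) : ℝ)) * om p (T - i) = X * ai (bb p) ρ T i := by
  have hT0 : (0 : ℝ) < T := by exact_mod_cast hT
  have hc : ((T - i : ℕ) : ℝ) = (T : ℝ) - i := by
    rw [Nat.cast_sub hi.le]
  have h1 : lam + mu * ((T - i : ℕ) : ℝ) = Real.log X - Real.log (om p T) - mu * i := by
    rw [hc, hlam]
    ring
  have h2 : Real.exp (lam + mu * ((T - i : ℕ) : ℝ)) = X / om p T * Real.exp (-(mu * i)) := by
    rw [h1, sub_eq_add_neg, Real.exp_add, Real.exp_sub, Real.exp_log hX, Real.exp_log (om_pos p hp1 T)]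
  have h3 : Real.exp (-(mu * i)) = ρ ^ i / (T : ℝ) ^ i * Real.exp (-(i * ((T - 1) * bb p))) := by
    have e1 : -(mu * i) = i * Real.log ρ - i * Real.log T + -(i * ((T - 1) * bb p)) := by
      rw [hmu]
      ring
    rw [e1, Real.exp_add, Real.exp_sub, ← Real.log_pow, ← Real.log_pow,
      Real.exp_log (pow_pos hρ i), Real.exp_log (pow_pos hT0 i)]
  have hf : ((T.factorial : ℕ) : ℝ) = ((T - i).factorial : ℝ) * (T.descFactorial i : ℝ) := by
    exact_mod_cast (Nat.factorial_mul_descFactorial hi.le).symm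
  have hf1 : (((T - i).factorial : ℕ) : ℝ) ≠ 0 := by exact_mod_cast (T - i).factorial_ne_zero
  have hf2 : ((T.descFactorial i : ℕ) : ℝ) ≠ 0 := by
    have := Nat.pos_of_ne_zero (Nat.descFactorial_eq_zero_iff_lt.not.2 (by omega : ¬ T < i))
    exact_mod_cast this.ne'
  rw [h2, h3, om_eq p hp1 T, om_eq p hp1 (T - i), hc, hf]
  unfold ai
  have hE := (Real.exp_pos (-(bb p * ((T : ℝ) * (T - 1) / 2)))).ne'
  have hTi := (pow_pos hT0 i).ne'
  field_simp
  rw [← Real.exp_add, ← Real.exp_add]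
  congr 1
  ring

theorem hPR1 : StPR1 := by
  intro p ρ n T hp0 hp1 hρ hT hn A m K mu lam κ hA hm hK hmu hlam hκ
  have hA0 : 0 < A := by rw [hA]; exact As_pos _ _ hρ T hT
  have hm0 : 0 ≤ m := by rw [hm]; exact div_nonneg (Bs_nn _ _ hρ T) hA0.le
  have hm1 : m ≤ T - 1 := by
    rw [hm, div_le_iff₀ hA0, hA]
    exact Bs_le _ _ hρ T
  have hTm : 0 < (T : ℝ) - m := by linarith
  have hn0 : (0 : ℝ) < n := by exact_mod_cast hn
  have hK0 : 0 < K := by rw [hK]; exact div_pos hn0 hTm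
  have hX : 0 < K / A := div_pos hK0 hA0
  have hk : ∀ i, i < T → κ (T - i) = K / A * ai (bb p) ρ T i := by
    intro i hi
    rw [hκ, if_pos ⟨by omega, by omega⟩]
    exact kap p ρ T i hp1 hρ hT hi (K / A) mu lam hX hmu hlam
  have hk0 : κ 0 = 0 := by
    rw [hκ, if_neg (by omega)]
  have s1 : KK T κ = K := by
    unfold KK
    rw [sum_top T κ hk0, sum_congr rfl fun i hi => hk i (mem_range.1 hi), ← mul_sum]
    change K / A * As (bb p) ρ T = K
    rw [← hA]
    field_simp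
  have s3 : ∑ u ∈ range (T + 1), ((T : ℝ) - u) * κ u = m * K := by
    rw [sum_top T (fun u => ((T : ℝ) - u) * κ u) (by simp [hk0])]
    have : ∀ i ∈ range T, ((T : ℝ) - ((T - i : ℕ) : ℝ)) * κ (T - i) =
        K / A * ((i : ℝ) * ai (bb p) ρ T i) := by
      intro i hi
      rw [hk i (mem_range.1 hi), Nat.cast_sub (mem_range.1 hi).le]
      ring
    rw [sum_congr rfl this, ← mul_sum]
    change K / A * Bs (bb p) ρ T = m * K
    rw [hm]
    ring
  have s2 : ∑ u ∈ range (T + 1), (u : ℝ) * κ u = n := by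
    have h1 : ∑ u ∈ range (T + 1), (u : ℝ) * κ u =
        T * KK T κ - ∑ u ∈ range (T + 1), ((T : ℝ) - u) * κ u := by
      unfold KK
      rw [mul_sum, ← sum_sub_distrib]
      exact sum_congr rfl fun u _ => by ring
    rw [h1, s1, s3, hK]
    field_simp
  refine ⟨hA0, hm0, hm1, hK0, hk, s1, s2, s3, ?_⟩
  have hnK : (n : ℝ) = K * (T - m) := by
    rw [hK]
    field_simp
  have hl : lam = Real.log K - Real.log A - mu * T - (hv p n T - T * Real.log n) := by
    rw [hlam, Real.log_div hK0.ne' hA0.ne', log_om p hp1 n T]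
  rw [hl]
  linear_combination (-mu + Real.log n - 1) * hnK

end Pool.Agent.Helper32.UX
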